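import Pool.Agent.TH311.MBInner

/-!
# MP_d967a3_an, Q1: convex bodies of `ℝⁿ`, `n ≥ 3`, other than ellipsoids, whose billiard map has
an invariant hypersurface

The definitions used by the statement (`Euc`, `IsTable`, `IsOuterNormal`, `outerNormal`,
`IsEllipsoid`, `lines`, `lineTangent`, `lineThrough`, `exitPoint`, `billiardMap`,
`IsInvariantHypersurface`) are in `Pool/Agent/H703R3/MBDefs.lean`.

The body is `‖x‖² + x₃⁴ ≤ 1`, and the hypersurface consists of the oriented lines whose angular
momentum `x₁ v₂ - x₂ v₁` is `1 / 2`.
-/

set_option autoImplicit false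

namespace Pool.Agent.Results.MP_d967a3_an.InnerHypersurface

open Pool.Agent.H703R3.MB

/-- For every `n ≥ 3` there is a billiard table in `ℝⁿ` (a compact convex domain with smooth,
strictly convex boundary) that is not an ellipsoid and whose billiard map, acting on the oriented
lines that meet the interior of the table, has an invariant hypersurface. (The map is well defined:
each such line leaves the table at a boundary point, which has exactly one outer unit normal.) -/
theorem result : ∀ n : ℕ, 3 ≤ n → ∃ Ω : Set (Euc n), IsTable Ω ∧ ¬ IsEllipsoid Ω ∧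
    (∀ l ∈ lines Ω, exitPoint Ω l ∈ frontier Ω ∧ ∃! ν, IsOuterNormal Ω (exitPoint Ω l) ν) ∧
    ∃ S : Set (Euc n × Euc n), IsInvariantHypersurface Ω S := Pool.Agent.TH311.MB.q1

end Pool.Agent.Results.MP_d967a3_an.InnerHypersurface
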